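import Pool.Agent.V5helper44.FZ.Stm

/-!
# Project FZ, job CHI: the characteristic function of the rounding
-/

set_option autoImplicit false

open Finset MeasureTheory Filter Topology

namespace Pool.Agent.V5helper48.FZ

open Pool.Agent.V5helper44.FZ

theorem norm_ex (y : ℝ) : ‖ex y‖ = 1 := by
  unfold ex
  have : (2 * Real.pi * y * Complex.I : ℂ) = ((2 * Real.pi * y : ℝ) : ℂ) * Complex.I := by
    push_cast; ring
  rw [this, Complex.norm_exp_ofReal_mul_I]

theorem continuous_ex : Continuous ex := by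
  unfold ex
  fun_prop

theorem continuous_hat : Continuous hat := by
  unfold hat
  fun_prop

theorem hat_nonneg (y : ℝ) : 0 ≤ hat y := le_max_left _ _

theorem hat_le (y : ℝ) : hat y ≤ 1 := by
  unfold hat
  exact max_le (by norm_num) (by linarith [abs_nonneg y])

theorem sum_zero (θ : ℝ) (M : ℕ) :
    ∑ v ∈ range (M + 1), ((hat ((0 : ℝ) - v) : ℝ) : ℂ) * ex (θ * v) = 1 := by
  rw [Finset.sum_eq_single 0]
  · simp [hat, ex]
  · intro v _ hv
    have h1 : (1 : ℝ) ≤ v := by exact_mod_cast Nat.one_le_iff_ne_zero.mpr hv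
    have h2 : hat ((0 : ℝ) - v) = 0 := by
      unfold hat
      rw [zero_sub, abs_neg, abs_of_nonneg (by linarith)]
      exact max_eq_left (by linarith)
    rw [h2]; simp
  · intro h
    exact absurd (mem_range.mpr (Nat.succ_pos M)) h

theorem t_CHI (hPOI : S_POI) : S_CHI := by
  intro Ω _ P _ X hX M N C₀ η hN hC hη hXM hdec θ δ hδ hq
  obtain ⟨a, ha⟩ : ∃ a : ℤ → ℝ, a = fun j : ℤ => (Real.sinc (Real.pi * (θ + j))) ^ 2 := ⟨_, rfl⟩
  have ha0 : ∀ j, 0 ≤ a j := fun j => by rw [ha]; positivity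
  have hs0 : HasSum (fun j : ℤ => (a j : ℂ)) ((1 : ℝ) : ℂ) := by
    have h := hPOI θ 0 M le_rfl (Nat.cast_nonneg M)
    rw [sum_zero] at h
    have h1 : (fun j : ℤ => (((Real.sinc (Real.pi * (θ + j))) ^ 2 : ℝ) : ℂ) * ex ((θ + j) * 0)) =
        fun j : ℤ => (a j : ℂ) := by
      funext j
      rw [ha]
      simp [ex]
    rw [h1] at h
    simpa using h
  have hs1 : HasSum a 1 := Complex.hasSum_ofReal.mp hs0
  -- the functions
  have hmeas : ∀ t : ℝ, Measurable fun ω => ex (t * X ω) := fun t =>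
    continuous_ex.measurable.comp (hX.const_mul t)
  have hint : ∀ t : ℝ, Integrable (fun ω => ex (t * X ω)) P := fun t =>
    Integrable.of_bound (hmeas t).aestronglyMeasurable 1 (Eventually.of_forall fun ω => (norm_ex _).le)
  have hF : ∀ j : ℤ, Integrable (fun ω => (a j : ℂ) * ex ((θ + j) * X ω)) P := fun j =>
    (hint (θ + j)).const_mul _
  have hFn : ∀ j : ℤ, ∫ ω, ‖(a j : ℂ) * ex ((θ + j) * X ω)‖ ∂P = a j := by
    intro j
    have h1 : ∀ ω, ‖(a j : ℂ) * ex ((θ + j) * X ω)‖ = a j := by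
      intro ω
      rw [norm_mul, norm_ex, mul_one, Complex.norm_real, Real.norm_of_nonneg (ha0 j)]
    simp only [h1]
    simp
  have hsumm : Summable fun j : ℤ => ∫ ω, ‖(a j : ℂ) * ex ((θ + j) * X ω)‖ ∂P := by
    simp only [hFn]
    exact hs1.summable
  have hmain := hasSum_integral_of_summable_integral_norm hF hsumm
  have hpt : ∀ ω, ∑' j : ℤ, (a j : ℂ) * ex ((θ + j) * X ω) =
      ∑ v ∈ range (M + 1), ((hat (X ω - v) : ℝ) : ℂ) * ex (θ * v) := by
    intro ω
    have h := hPOI θ (X ω) M (hXM ω).1 (hXM ω).2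
    have := h.tsum_eq
    rw [ha]
    exact this
  simp only [hpt] at hmain
  have hhat : ∀ v : ℕ, Integrable (fun ω => hat (X ω - v)) P := fun v =>
    Integrable.of_bound (continuous_hat.measurable.comp (hX.sub_const (v : ℝ))).aestronglyMeasurable 1
      (Eventually.of_forall fun ω => by
        rw [Real.norm_of_nonneg (hat_nonneg _)]; exact hat_le _)
  have hint2 : ∫ ω, ∑ v ∈ range (M + 1), ((hat (X ω - v) : ℝ) : ℂ) * ex (θ * v) ∂P =
      ∑ v ∈ range (M + 1), ((pr P X v : ℝ) : ℂ) * ex (θ * v) := by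
    rw [integral_finsetSum]
    · refine Finset.sum_congr rfl fun v _ => ?_
      rw [integral_mul_const, integral_complex_ofReal]
      rfl
    · intro v _
      exact (hhat v).ofReal.mul_const _
  rw [hint2] at hmain
  have hb : HasSum (fun j => a j * (C₀ * (δ * N) ^ (-η))) (1 * (C₀ * (δ * N) ^ (-η))) := hs1.mul_right _
  have hfin := hmain.norm_le_of_bounded hb (fun j => by
    rw [integral_const_mul, norm_mul, Complex.norm_real, Real.norm_of_nonneg (ha0 j)]
    refine mul_le_mul_of_nonneg_left ?_ (ha0 j)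
    have hj : δ ≤ |θ + j| := by
      have := hq (-j)
      push_cast at this
      rwa [sub_neg_eq_add] at this
    have hj0 : θ + (j : ℝ) ≠ 0 := by
      intro h0
      rw [h0, abs_zero] at hj
      linarith
    refine (hdec (θ + j) hj0).trans ?_
    refine mul_le_mul_of_nonneg_left ?_ hC
    exact Real.rpow_le_rpow_of_nonpos (by positivity) (mul_le_mul_of_nonneg_right hj hN.le)
      (by linarith))
  rwa [one_mul] at hfin

end Pool.Agent.V5helper48.FZ
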